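import Pool.Agent.Work.MP_def58e_hole.Kern

/-!
Positive definite kernels with a pole for two families of unit vectors: signed forms, lists of
functions, and the counting argument.
-/

namespace MPdef58eTwo

open Finset MPdef58e MPdef58eHole

noncomputable section

/-- the form of a kernel with signs is nonnegative -/
theorem form_signed {ι : Type*} [Fintype ι] (k : ℕ) (p : ℝ → ℝ) (σ x : ι → ℝ) (z : ι → ℂ)
    (t : ι → ι → ℝ) (hz : ∀ i, Complex.normSq (z i) = 1 - x i ^ 2)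
    (ht : ∀ i j, t i j = x i * x j + (z i * (starRingEnd ℂ) (z j)).re) :
    0 ≤ ∑ i, ∑ j, σ i * σ j * (Q k (x i) (x j) (t i j) * (p (x i) * p (x j))) := by
  have e : ∀ i j, σ i * σ j * (Q k (x i) (x j) (t i j) * (p (x i) * p (x j)))
      = ((((σ i * p (x i) : ℝ) : ℂ) * z i ^ k) *
        (starRingEnd ℂ) (((σ j * p (x j) : ℝ) : ℂ) * z j ^ k)).re := by
    intro i j
    have h := (Q_eq k (x i) (x j) (t i j) (z i * (starRingEnd ℂ) (z j))
      (by rw [ht i j]; ring) (by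
        rw [Complex.normSq_mul, Complex.normSq_conj, hz, hz])).1
    rw [h]
    have e2 : (((σ i * p (x i) : ℝ) : ℂ) * z i ^ k) *
        (starRingEnd ℂ) (((σ j * p (x j) : ℝ) : ℂ) * z j ^ k)
        = (((σ i * p (x i)) * (σ j * p (x j)) : ℝ) : ℂ) *
          (z i * (starRingEnd ℂ) (z j)) ^ k := by
      rw [map_mul, map_pow, Complex.conj_ofReal]
      push_cast
      ring
    rw [e2, Complex.re_ofReal_mul]
    ring
  simp only [e]
  rw [← sum_congr rfl fun i _ => Complex.re_sum _ _, ← Complex.re_sum]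
  have e3 : ∑ i, ∑ j, (((σ i * p (x i) : ℝ) : ℂ) * z i ^ k) *
      (starRingEnd ℂ) (((σ j * p (x j) : ℝ) : ℂ) * z j ^ k)
      = (∑ i, ((σ i * p (x i) : ℝ) : ℂ) * z i ^ k) *
        (starRingEnd ℂ) (∑ i, ((σ i * p (x i) : ℝ) : ℂ) * z i ^ k) := by
    rw [map_sum, sum_mul_sum]
  rw [e3, Complex.mul_conj, Complex.ofReal_re]
  exact Complex.normSq_nonneg _

/-- the value of a list of functions -/
def ls (fs : List (ℝ → ℝ)) (u v : ℝ) : ℝ := (fs.map fun f => f u * f v).sum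

theorem form_list {ι : Type*} [Fintype ι] (k : ℕ) (fs : List (ℝ → ℝ)) (σ x : ι → ℝ) (z : ι → ℂ)
    (t : ι → ι → ℝ) (hz : ∀ i, Complex.normSq (z i) = 1 - x i ^ 2)
    (ht : ∀ i j, t i j = x i * x j + (z i * (starRingEnd ℂ) (z j)).re) :
    0 ≤ ∑ i, ∑ j, σ i * σ j * (Q k (x i) (x j) (t i j) * ls fs (x i) (x j)) := by
  induction fs with
  | nil => simp [ls]
  | cons f fs ih =>
    have h := form_signed k f σ x z t hz ht
    have e : ∀ i j, σ i * σ j * (Q k (x i) (x j) (t i j) * ls (f :: fs) (x i) (x j))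
        = σ i * σ j * (Q k (x i) (x j) (t i j) * (f (x i) * f (x j)))
          + σ i * σ j * (Q k (x i) (x j) (t i j) * ls fs (x i) (x j)) := by
      intro i j
      simp only [ls, List.map_cons, List.sum_cons]
      ring
    simp only [e, sum_add_distrib]
    linarith

/-- a kernel given by lists of functions, one for each degree -/
def ker (F : List (List (ℝ → ℝ))) (k : ℕ) (u v t : ℝ) : ℝ :=
  match F with
  | [] => 0
  | fs :: F => Q k u v t * ls fs u v + ker F (k + 1) u v t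

theorem ker_form {ι : Type*} [Fintype ι] (F : List (List (ℝ → ℝ))) (k : ℕ) (σ x : ι → ℝ)
    (z : ι → ℂ) (t : ι → ι → ℝ) (hz : ∀ i, Complex.normSq (z i) = 1 - x i ^ 2)
    (ht : ∀ i j, t i j = x i * x j + (z i * (starRingEnd ℂ) (z j)).re) :
    0 ≤ ∑ i, ∑ j, σ i * σ j * ker F k (x i) (x j) (t i j) := by
  induction F generalizing k with
  | nil => simp [ker]
  | cons fs F ih =>
    have h := form_list k fs σ x z t hz ht
    have e : ∀ i j, σ i * σ j * ker (fs :: F) k (x i) (x j) (t i j)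
        = σ i * σ j * (Q k (x i) (x j) (t i j) * ls fs (x i) (x j))
          + σ i * σ j * ker F (k + 1) (x i) (x j) (t i j) := by
      intro i j
      simp only [ker]
      ring
    simp only [e, sum_add_distrib]
    have := ih (k + 1)
    linarith

/-- `Q` in the variables `s = u + v`, `p = u v`, `t` -/
def qq : ℕ → ℝ → ℝ → ℝ → ℝ
  | 0, _, _, _ => 1
  | 1, _, p, t => t - p
  | k + 2, s, p, t => 2 * (t - p) * qq (k + 1) s p t - (1 - (s ^ 2 - 2 * p) + p ^ 2) * qq k s p t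

theorem Q_eq_qq (k : ℕ) (u v t : ℝ) :
    Q k u v t = qq k (u + v) (u * v) t ∧ Q (k + 1) u v t = qq (k + 1) (u + v) (u * v) t := by
  induction k with
  | zero => simp [Q, qq]
  | succ k ih =>
    refine ⟨ih.2, ?_⟩
    show 2 * (t - u * v) * Q (k + 1) u v t - (1 - u ^ 2) * (1 - v ^ 2) * Q k u v t =
      2 * (t - u * v) * qq (k + 1) (u + v) (u * v) t
        - (1 - ((u + v) ^ 2 - 2 * (u * v)) + (u * v) ^ 2) * qq k (u + v) (u * v) t
    rw [ih.1, ih.2]
    ring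

theorem Q_diag (k : ℕ) (u : ℝ) :
    Q k u u 1 = (1 - u ^ 2) ^ k ∧ Q (k + 1) u u 1 = (1 - u ^ 2) ^ (k + 1) := by
  induction k with
  | zero => simp [Q]; ring
  | succ k ih =>
    refine ⟨ih.2, ?_⟩
    show 2 * (1 - u * u) * Q (k + 1) u u 1 - (1 - u ^ 2) * (1 - u ^ 2) * Q k u u 1 = _
    rw [ih.1, ih.2]
    ring

theorem Q_swap (k : ℕ) (u v t : ℝ) :
    Q k u v t = Q k v u t ∧ Q (k + 1) u v t = Q (k + 1) v u t := by
  induction k with
  | zero => simp [Q, mul_comm]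
  | succ k ih =>
    refine ⟨ih.2, ?_⟩
    show 2 * (t - u * v) * Q (k + 1) u v t - (1 - u ^ 2) * (1 - v ^ 2) * Q k u v t =
      2 * (t - v * u) * Q (k + 1) v u t - (1 - v ^ 2) * (1 - u ^ 2) * Q k v u t
    rw [ih.1, ih.2]
    ring

theorem ls_swap (fs : List (ℝ → ℝ)) (u v : ℝ) : ls fs u v = ls fs v u := by
  unfold ls
  congr 1
  exact List.map_congr_left fun f _ => mul_comm _ _

theorem ker_swap (F : List (List (ℝ → ℝ))) (k : ℕ) (u v t : ℝ) :
    ker F k u v t = ker F k v u t := by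
  induction F generalizing k with
  | nil => rfl
  | cons fs F ih => simp only [ker]; rw [(Q_swap k u v t).1, ls_swap fs u v, ih]

/-- one family -/
theorem aa_bound {N : ℕ} (hN : 2 ≤ N) (x : Fin N → ℝ) (F : Fin N → Fin N → ℝ) (g1 g2 : ℝ → ℝ)
    (ε : ℝ) (h1 : ∀ i, F i i ≤ - g1 (x i) - g2 (x i) - ε)
    (h2 : ∀ i j, i ≠ j → F i j ≤ (g1 (x i) + g1 (x j)) / (2 * ((N : ℝ) - 1))) :
    ∑ i, ∑ j, F i j ≤ - ∑ i, g2 (x i) - N * ε := by
  have hN' : (0 : ℝ) < (N : ℝ) - 1 := by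
    have : (2 : ℝ) ≤ N := by exact_mod_cast hN
    linarith
  have hb : ∀ i j, F i j ≤ (g1 (x i) + g1 (x j)) / (2 * ((N : ℝ) - 1))
      + (if i = j then (- g1 (x i) - g2 (x i) - ε - g1 (x i) / ((N : ℝ) - 1)) else 0) := by
    intro i j
    by_cases hij : i = j
    · subst hij
      rw [if_pos rfl]
      have := h1 i
      have e : (g1 (x i) + g1 (x i)) / (2 * ((N : ℝ) - 1)) = g1 (x i) / ((N : ℝ) - 1) := by
        field_simp
        ring
      linarith
    · rw [if_neg hij, add_zero]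
      exact h2 i j hij
  have hs : ∑ i, ∑ j, F i j ≤ ∑ i, ∑ j, ((g1 (x i) + g1 (x j)) / (2 * ((N : ℝ) - 1))
      + (if i = j then (- g1 (x i) - g2 (x i) - ε - g1 (x i) / ((N : ℝ) - 1)) else 0)) :=
    sum_le_sum fun i _ => sum_le_sum fun j _ => hb i j
  have e : ∑ i : Fin N, ∑ j : Fin N, ((g1 (x i) + g1 (x j)) / (2 * ((N : ℝ) - 1))
      + (if i = j then (- g1 (x i) - g2 (x i) - ε - g1 (x i) / ((N : ℝ) - 1)) else 0))
      = - ∑ i, g2 (x i) - N * ε := by
    simp only [sum_add_distrib, sum_ite_eq, mem_univ, if_true, ← sum_div, sum_const, card_univ,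
      Fintype.card_fin, nsmul_eq_mul, sum_sub_distrib, sum_neg_distrib, ← mul_sum]
    field_simp
    ring
  linarith

/-- two families -/
theorem ab_bound {N : ℕ} (hN : 2 ≤ N) (x y : Fin N → ℝ) (F : Fin N → Fin N → ℝ) (g2 : ℝ → ℝ)
    (h2 : ∀ i j, F i j ≤ (g2 (x i) + g2 (y j)) / (2 * (N : ℝ))) :
    ∑ i, ∑ j, F i j ≤ (∑ i, g2 (x i) + ∑ i, g2 (y i)) / 2 := by
  have hN' : (0 : ℝ) < (N : ℝ) := by
    have : (2 : ℝ) ≤ N := by exact_mod_cast hN
    linarith
  have hs : ∑ i, ∑ j, F i j ≤ ∑ i, ∑ j, ((g2 (x i) + g2 (y j)) / (2 * (N : ℝ))) :=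
    sum_le_sum fun i _ => sum_le_sum fun j _ => h2 i j
  have e : ∑ i : Fin N, ∑ j : Fin N, ((g2 (x i) + g2 (y j)) / (2 * (N : ℝ)))
      = (∑ i, g2 (x i) + ∑ i, g2 (y i)) / 2 := by
    simp only [sum_add_distrib, ← sum_div, sum_const, card_univ,
      Fintype.card_fin, nsmul_eq_mul, ← mul_sum]
    field_simp
  linarith

/-- **The counting argument for two families.** -/
theorem no_double {N : ℕ} (hN : 2 ≤ N) (a b : Fin N → Fin 3 → ℝ) (e : Fin 3 → ℝ)
    (ha : ∀ i, IsUnit3 (a i)) (hb : ∀ i, IsUnit3 (b i)) (he : IsUnit3 e)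
    (P M : List (List (ℝ → ℝ))) (g1 g2 : ℝ → ℝ) (ε m c : ℝ) (hε : 0 < ε)
    (hdiag : ∀ u, -1 ≤ u → u ≤ m → ker P 0 u u 1 + ker M 0 u u 1 ≤ - g1 u - g2 u - ε)
    (h1 : ∀ u v t, u ≤ m → v ≤ m → t ≤ 1 / 2 →
      ker P 0 u v t + ker M 0 u v t ≤ (g1 u + g1 v) / (2 * ((N : ℝ) - 1)))
    (h2 : ∀ u v t, u ≤ m → v ≤ m → t ≤ 1 + c - (u + v) + 2 * (u * v) →
      ker P 0 u v t - ker M 0 u v t ≤ (g2 u + g2 v) / (2 * (N : ℝ)))
    (haa : ∀ i j, i ≠ j → ip (a i) (a j) ≤ 1 / 2) (hbb : ∀ i j, i ≠ j → ip (b i) (b j) ≤ 1 / 2)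
    (hae : ∀ i, ip (a i) e ≤ m) (hbe : ∀ i, ip (b i) e ≤ m)
    (hab : ∀ i j, ip (a i) (b j) ≤ 1 + c - (ip (a i) e + ip (b j) e)
      + 2 * (ip (a i) e * ip (b j) e)) : False := by
  obtain ⟨z, hz⟩ := exists_frame e he
  have hzn : ∀ w : Fin 3 → ℝ, IsUnit3 w → Complex.normSq (z w) = 1 - ip w e ^ 2 := by
    intro w hw
    have h := hz w w
    rw [ip_self' hw] at h
    have h2 : (z w * (starRingEnd ℂ) (z w)).re = Complex.normSq (z w) := by
      rw [Complex.mul_conj, Complex.ofReal_re]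
    rw [h2] at h
    linarith [sq (ip w e)]
  -- all vectors
  let q : Fin N ⊕ Fin N → Fin 3 → ℝ := Sum.elim a b
  let σ : Fin N ⊕ Fin N → ℝ := Sum.elim (fun _ => 1) (fun _ => -1)
  have hq : ∀ i, IsUnit3 (q i) := by
    rintro (i | i)
    · exact ha i
    · exact hb i
  have f1 := ker_form P 0 (fun _ : Fin N ⊕ Fin N => (1 : ℝ)) (fun i => ip (q i) e)
    (fun i => z (q i)) (fun i j => ip (q i) (q j)) (fun i => hzn _ (hq i)) (fun i j => hz _ _)
  have f2 := ker_form M 0 σ (fun i => ip (q i) e)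
    (fun i => z (q i)) (fun i j => ip (q i) (q j)) (fun i => hzn _ (hq i)) (fun i j => hz _ _)
  simp only [Fintype.sum_sum_type, σ, q, Sum.elim_inl, Sum.elim_inr, one_mul, mul_one] at f1 f2
  have hcomm : ∀ w w' : Fin 3 → ℝ, ip w w' = ip w' w := fun w w' => by unfold ip; ring
  -- the four parts
  have A1 := aa_bound hN (fun i => ip (a i) e)
    (fun i j => ker P 0 (ip (a i) e) (ip (a j) e) (ip (a i) (a j))
      + ker M 0 (ip (a i) e) (ip (a j) e) (ip (a i) (a j))) g1 g2 ε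
    (fun i => by
      have := hdiag (ip (a i) e) (neg_one_le_ip (ha i) he) (hae i)
      rw [ip_self' (ha i)]
      exact this)
    (fun i j hij => h1 _ _ _ (hae i) (hae j) (haa i j hij))
  have A2 := aa_bound hN (fun i => ip (b i) e)
    (fun i j => ker P 0 (ip (b i) e) (ip (b j) e) (ip (b i) (b j))
      + ker M 0 (ip (b i) e) (ip (b j) e) (ip (b i) (b j))) g1 g2 ε
    (fun i => by
      have := hdiag (ip (b i) e) (neg_one_le_ip (hb i) he) (hbe i)
      rw [ip_self' (hb i)]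
      exact this)
    (fun i j hij => h1 _ _ _ (hbe i) (hbe j) (hbb i j hij))
  have A3 := ab_bound hN (fun i => ip (a i) e) (fun i => ip (b i) e)
    (fun i j => ker P 0 (ip (a i) e) (ip (b j) e) (ip (a i) (b j))
      - ker M 0 (ip (a i) e) (ip (b j) e) (ip (a i) (b j))) g2
    (fun i j => h2 _ _ _ (hae i) (hbe j) (hab i j))
  have A4 := ab_bound hN (fun i => ip (b i) e) (fun i => ip (a i) e)
    (fun i j => ker P 0 (ip (b i) e) (ip (a j) e) (ip (b i) (a j))
      - ker M 0 (ip (b i) e) (ip (a j) e) (ip (b i) (a j))) g2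
    (fun i j => h2 _ _ _ (hbe i) (hae j) (by
      have := hab j i
      rw [hcomm (b i) (a j)]
      linarith))
  simp only [sum_add_distrib, sum_sub_distrib] at A1 A2 A3 A4 f1 f2
  have hN0 : (0 : ℝ) < N := by
    have : (2 : ℝ) ≤ N := by exact_mod_cast hN
    linarith
  have hpos : 0 < (N : ℝ) * ε := mul_pos hN0 hε
  have e1 : ∀ s : Fin N → Fin N → ℝ, ∑ i, ∑ j, (-1 : ℝ) * s i j = - ∑ i, ∑ j, s i j := by
    intro s
    simp only [neg_mul, one_mul, sum_neg_distrib]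
  simp only [mul_neg, neg_neg, mul_one, one_mul, neg_mul, sum_neg_distrib] at f2
  linarith

end

end MPdef58eTwo
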