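import Pool.Agent.Work.MP_def58e_co.Radial3
import Pool.Agent.Work.MP_def58e_two.Kern2

/-!
Two stars at distance at least two: geometry.
-/

namespace MPdef58eTwo

open MPdef58e

noncomputable section

/-- There are no two families of `N` unit vectors (the second one reflected) with the conditions
of the certificate. -/
def NoPair (N : ℕ) (m c : ℝ) : Prop :=
  ∀ (a b : Fin N → Fin 3 → ℝ) (e : Fin 3 → ℝ), (∀ i, IsUnit3 (a i)) → (∀ i, IsUnit3 (b i)) →
    IsUnit3 e → (∀ i j, i ≠ j → ip (a i) (a j) ≤ 1 / 2) →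
    (∀ i j, i ≠ j → ip (b i) (b j) ≤ 1 / 2) → (∀ i, ip (a i) e ≤ m) → (∀ i, ip (b i) e ≤ m) →
    (∀ i j, ip (a i) (b j) ≤ 1 + c - (ip (a i) e + ip (b j) e)
      + 2 * (ip (a i) e * ip (b j) e)) → False

theorem inner3 (a b : E3) : inner ℝ a b = a 0 * b 0 + a 1 * b 1 + a 2 * b 2 := by
  rw [PiLp.inner_apply, Fin.sum_univ_three]
  simp only [RCLike.inner_apply, conj_trivial]
  ring

theorem normsq3 (a : E3) : ‖a‖ ^ 2 = a 0 ^ 2 + a 1 ^ 2 + a 2 ^ 2 := by
  rw [← real_inner_self_eq_norm_sq, inner3]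
  ring

theorem star_geom {N : ℕ} {κ : ℝ} (hκ : 0 ≤ κ) (H : NoPair N (1 - κ ^ 2 / 2) ((1 - κ ^ 2) / 2))
    (a w : Fin N → E3) (e : E3) (ha : ∀ i, ‖a i‖ = 1) (hw : ∀ i, ‖w i‖ = 1) (he : ‖e‖ = 1)
    (haa : ∀ i j, i ≠ j → inner ℝ (a i) (a j) ≤ 1 / 2)
    (hww : ∀ i j, i ≠ j → inner ℝ (w i) (w j) ≤ 1 / 2)
    (h1 : ∀ i, κ ≤ ‖e - a i‖) (h2 : ∀ i, κ ≤ ‖e + w i‖)
    (h3 : ∀ i j, κ ≤ ‖e + w j - a i‖) : False := by
  have hsq : ∀ v : E3, κ ≤ ‖v‖ → κ ^ 2 ≤ v 0 ^ 2 + v 1 ^ 2 + v 2 ^ 2 := by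
    intro v hv
    rw [← normsq3]
    exact pow_le_pow_left₀ hκ hv 2
  have hu : ∀ v : E3, ‖v‖ = 1 → v 0 ^ 2 + v 1 ^ 2 + v 2 ^ 2 = 1 := by
    intro v hv
    rw [← normsq3, hv]
    norm_num
  have he1 := hu e he
  refine H (fun i k => a i k)
    (fun i k => w i k - 2 * (w i 0 * e 0 + w i 1 * e 1 + w i 2 * e 2) * e k) (fun k => e k)
    (fun i => hu _ (ha i)) (fun i => ?_) he1 (fun i j hij => ?_) (fun i j hij => ?_)
    (fun i => ?_) (fun i => ?_) (fun i j => ?_)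
  · have := hu _ (hw i)
    unfold IsUnit3
    show (w i 0 - 2 * (w i 0 * e 0 + w i 1 * e 1 + w i 2 * e 2) * e 0) ^ 2
      + (w i 1 - 2 * (w i 0 * e 0 + w i 1 * e 1 + w i 2 * e 2) * e 1) ^ 2
      + (w i 2 - 2 * (w i 0 * e 0 + w i 1 * e 1 + w i 2 * e 2) * e 2) ^ 2 = 1
    linear_combination this + 4 * (w i 0 * e 0 + w i 1 * e 1 + w i 2 * e 2) ^ 2 * he1
  · have := haa i j hij
    rw [inner3] at this
    exact this
  · have := hww i j hij
    rw [inner3] at this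
    show (w i 0 - 2 * (w i 0 * e 0 + w i 1 * e 1 + w i 2 * e 2) * e 0)
        * (w j 0 - 2 * (w j 0 * e 0 + w j 1 * e 1 + w j 2 * e 2) * e 0)
      + (w i 1 - 2 * (w i 0 * e 0 + w i 1 * e 1 + w i 2 * e 2) * e 1)
        * (w j 1 - 2 * (w j 0 * e 0 + w j 1 * e 1 + w j 2 * e 2) * e 1)
      + (w i 2 - 2 * (w i 0 * e 0 + w i 1 * e 1 + w i 2 * e 2) * e 2)
        * (w j 2 - 2 * (w j 0 * e 0 + w j 1 * e 1 + w j 2 * e 2) * e 2) ≤ 1 / 2
    have e2 : (w i 0 - 2 * (w i 0 * e 0 + w i 1 * e 1 + w i 2 * e 2) * e 0)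
        * (w j 0 - 2 * (w j 0 * e 0 + w j 1 * e 1 + w j 2 * e 2) * e 0)
      + (w i 1 - 2 * (w i 0 * e 0 + w i 1 * e 1 + w i 2 * e 2) * e 1)
        * (w j 1 - 2 * (w j 0 * e 0 + w j 1 * e 1 + w j 2 * e 2) * e 1)
      + (w i 2 - 2 * (w i 0 * e 0 + w i 1 * e 1 + w i 2 * e 2) * e 2)
        * (w j 2 - 2 * (w j 0 * e 0 + w j 1 * e 1 + w j 2 * e 2) * e 2)
        = w i 0 * w j 0 + w i 1 * w j 1 + w i 2 * w j 2 := by
      linear_combination 4 * (w i 0 * e 0 + w i 1 * e 1 + w i 2 * e 2)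
        * (w j 0 * e 0 + w j 1 * e 1 + w j 2 * e 2) * he1
    linarith
  · have q := hsq _ (h1 i)
    have q2 := hu _ (ha i)
    simp only [PiLp.sub_apply] at q
    show a i 0 * e 0 + a i 1 * e 1 + a i 2 * e 2 ≤ _
    nlinarith
  · have q := hsq _ (h2 i)
    have q2 := hu _ (hw i)
    simp only [PiLp.add_apply] at q
    show (w i 0 - 2 * (w i 0 * e 0 + w i 1 * e 1 + w i 2 * e 2) * e 0) * e 0
      + (w i 1 - 2 * (w i 0 * e 0 + w i 1 * e 1 + w i 2 * e 2) * e 1) * e 1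
      + (w i 2 - 2 * (w i 0 * e 0 + w i 1 * e 1 + w i 2 * e 2) * e 2) * e 2 ≤ _
    have e2 : (w i 0 - 2 * (w i 0 * e 0 + w i 1 * e 1 + w i 2 * e 2) * e 0) * e 0
      + (w i 1 - 2 * (w i 0 * e 0 + w i 1 * e 1 + w i 2 * e 2) * e 1) * e 1
      + (w i 2 - 2 * (w i 0 * e 0 + w i 1 * e 1 + w i 2 * e 2) * e 2) * e 2
      = - (w i 0 * e 0 + w i 1 * e 1 + w i 2 * e 2) := by
      linear_combination (-2) * (w i 0 * e 0 + w i 1 * e 1 + w i 2 * e 2) * he1
    rw [e2]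
    nlinarith
  · have q := hsq _ (h3 i j)
    have qa := hu _ (ha i)
    have qw := hu _ (hw j)
    simp only [PiLp.add_apply, PiLp.sub_apply] at q
    show a i 0 * (w j 0 - 2 * (w j 0 * e 0 + w j 1 * e 1 + w j 2 * e 2) * e 0)
      + a i 1 * (w j 1 - 2 * (w j 0 * e 0 + w j 1 * e 1 + w j 2 * e 2) * e 1)
      + a i 2 * (w j 2 - 2 * (w j 0 * e 0 + w j 1 * e 1 + w j 2 * e 2) * e 2)
      ≤ 1 + (1 - κ ^ 2) / 2 - ((a i 0 * e 0 + a i 1 * e 1 + a i 2 * e 2)
        + ((w j 0 - 2 * (w j 0 * e 0 + w j 1 * e 1 + w j 2 * e 2) * e 0) * e 0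
      + (w j 1 - 2 * (w j 0 * e 0 + w j 1 * e 1 + w j 2 * e 2) * e 1) * e 1
      + (w j 2 - 2 * (w j 0 * e 0 + w j 1 * e 1 + w j 2 * e 2) * e 2) * e 2))
      + 2 * ((a i 0 * e 0 + a i 1 * e 1 + a i 2 * e 2)
        * ((w j 0 - 2 * (w j 0 * e 0 + w j 1 * e 1 + w j 2 * e 2) * e 0) * e 0
      + (w j 1 - 2 * (w j 0 * e 0 + w j 1 * e 1 + w j 2 * e 2) * e 1) * e 1
      + (w j 2 - 2 * (w j 0 * e 0 + w j 1 * e 1 + w j 2 * e 2) * e 2) * e 2))
    have e2 : (w j 0 - 2 * (w j 0 * e 0 + w j 1 * e 1 + w j 2 * e 2) * e 0) * e 0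
      + (w j 1 - 2 * (w j 0 * e 0 + w j 1 * e 1 + w j 2 * e 2) * e 1) * e 1
      + (w j 2 - 2 * (w j 0 * e 0 + w j 1 * e 1 + w j 2 * e 2) * e 2) * e 2
      = - (w j 0 * e 0 + w j 1 * e 1 + w j 2 * e 2) := by
      linear_combination (-2) * (w j 0 * e 0 + w j 1 * e 1 + w j 2 * e 2) * he1
    rw [e2]
    nlinarith

/-- a star of `N` neighbours -/
theorem exists_star {C : Set E3} (hC : IsPacking C) {c : E3} {N : ℕ}
    (h : (N : ℕ∞) ≤ (neighbours C c).encard) :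
    ∃ y : Fin N → E3, (∀ i, y i ∈ C) ∧ (∀ i, dist c (y i) = 2) ∧
      ∀ i j, i ≠ j → 2 ≤ dist (y i) (y j) := by
  obtain ⟨t, ht, hcard⟩ := Set.exists_subset_encard_eq h
  have hfin : t.Finite := Set.finite_of_encard_eq_coe (k := N) (by simpa using hcard)
  have hc : hfin.toFinset.card = N := by
    have := hfin.encard_eq_coe_toFinset_card
    rw [hcard] at this
    exact_mod_cast this.symm
  let e := (Finset.equivFinOfCardEq hc).symm
  have hmem : ∀ i, ((e i : hfin.toFinset) : E3) ∈ neighbours C c := fun i =>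
    ht ((Set.Finite.mem_toFinset hfin).1 (e i).2)
  refine ⟨fun i => (e i : E3), fun i => (hmem i).1, fun i => (hmem i).2, fun i j hij => ?_⟩
  refine hC _ (hmem i).1 _ (hmem j).1 fun h => hij ?_
  exact e.injective (Subtype.ext h)

/-- half of the difference of the centres -/
def hd {N : ℕ} (c : E3) (y : Fin N → E3) (i : Fin N) : E3 := (1 / 2 : ℝ) • (y i - c)

theorem norm_hd {N : ℕ} {c : E3} {y : Fin N → E3} (h2 : ∀ i, dist c (y i) = 2) (i : Fin N) :
    ‖hd c y i‖ = 1 := by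
  unfold hd
  rw [norm_smul, ← dist_eq_norm, dist_comm, h2 i]
  norm_num

theorem inner_hd {N : ℕ} {c : E3} {y : Fin N → E3} (h2 : ∀ i, dist c (y i) = 2)
    (hy : ∀ i j, i ≠ j → 2 ≤ dist (y i) (y j)) (i j : Fin N) (hij : i ≠ j) :
    inner ℝ (hd c y i) (hd c y j) ≤ 1 / 2 := by
  have h1 : ‖hd c y i - hd c y j‖ ^ 2 = ‖hd c y i‖ ^ 2 - 2 * inner ℝ (hd c y i) (hd c y j) +
      ‖hd c y j‖ ^ 2 := norm_sub_sq_real _ _
  have h3 : ‖hd c y i - hd c y j‖ = dist (y i) (y j) / 2 := by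
    unfold hd
    rw [← smul_sub, norm_smul, dist_eq_norm, show y i - c - (y j - c) = y i - y j by abel,
      Real.norm_of_nonneg (by norm_num)]
    ring
  have h4 := hy i j hij
  rw [norm_hd h2, norm_hd h2, h3] at h1
  nlinarith

/-- **Descent**: two stars at distance `r > 2` contain two centres at distance less than
`r - η`. -/
theorem descent_aux {C : Set E3} (hC : IsPacking C) {N : ℕ} {κ : ℝ} (hκ : 0 ≤ κ)
    (H : NoPair N (1 - κ ^ 2 / 2) ((1 - κ ^ 2) / 2)) {x y : E3} (hx : x ∈ C) (hy : y ∈ C)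
    (hNx : (N : ℕ∞) ≤ (neighbours C x).encard) (hNy : (N : ℕ∞) ≤ (neighbours C y).encard)
    (hxy : 2 < dist x y) :
    ∃ x' ∈ C, ∃ y' ∈ C, (x' = x ∨ dist x x' = 2) ∧ (y' = y ∨ dist y y' = 2) ∧
      dist x' y' < dist x y - (2 - 2 * κ) := by
  by_contra hcon
  push Not at hcon
  obtain ⟨z, hz1, hz2, hz3⟩ := exists_star hC hNx
  obtain ⟨w, hw1, hw2, hw3⟩ := exists_star hC hNy
  set r := dist x y with hr
  have hr0 : 0 < r := by linarith
  set e : E3 := (1 / r) • (y - x) with he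
  have hen : ‖e‖ = 1 := by
    rw [he, norm_smul, ← dist_eq_norm, dist_comm, ← hr, Real.norm_of_nonneg (by positivity)]
    field_simp
  have hye : y - x = r • e := by
    rw [he, smul_smul]
    rw [show r * (1 / r) = 1 by field_simp, one_smul]
  have hze : ∀ i, z i - x = (2 : ℝ) • hd x z i := by
    intro i
    unfold hd
    rw [smul_smul]
    norm_num
  have hwe : ∀ i, w i - y = (2 : ℝ) • hd y w i := by
    intro i
    unfold hd
    rw [smul_smul]
    norm_num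
  have key : ∀ (p q v : E3), q - p = (2 : ℝ) • v + (r - 2) • e → r - (2 - 2 * κ) ≤ dist p q →
      κ ≤ ‖v‖ := by
    intro p q v h1 h2
    rw [dist_comm, dist_eq_norm, h1] at h2
    have h3 := norm_add_le ((2 : ℝ) • v) ((r - 2) • e)
    rw [norm_smul, norm_smul, hen, Real.norm_of_nonneg (by norm_num : (0 : ℝ) ≤ 2),
      Real.norm_of_nonneg (by linarith : (0 : ℝ) ≤ r - 2)] at h3
    linarith
  refine star_geom hκ H (hd x z) (hd y w) e (norm_hd hz2) (norm_hd hw2) hen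
    (inner_hd hz2 hz3) (inner_hd hw2 hw3) (fun i => ?_) (fun i => ?_) (fun i j => ?_)
  · refine key (z i) y _ ?_ (hcon (z i) (hz1 i) y hy (Or.inr (hz2 i)) (Or.inl rfl))
    have : y - z i = (y - x) - (z i - x) := by abel
    rw [this, hye, hze]
    module
  · refine key x (w i) _ ?_ (hcon x hx (w i) (hw1 i) (Or.inl rfl) (Or.inr (hw2 i)))
    have : w i - x = (y - x) + (w i - y) := by abel
    rw [this, hye, hwe]
    module
  · refine key (z i) (w j) _ ?_ (hcon (z i) (hz1 i) (w j) (hw1 j) (Or.inr (hz2 i))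
      (Or.inr (hw2 j)))
    have : w j - z i = (y - x) + (w j - y) - (z i - x) := by abel
    rw [this, hye, hwe, hze]
    module

/-- `x` and `y` are joined by a chain of `n` steps between touching balls -/
def Joined (C : Set E3) (n : ℕ) (x y : E3) : Prop :=
  ∃ c : ℕ → E3, c 0 = x ∧ c n = y ∧ (∀ i ≤ n, c i ∈ C) ∧ ∀ i < n, dist (c i) (c (i + 1)) = 2

theorem joined_refl {C : Set E3} {x : E3} (hx : x ∈ C) : Joined C 0 x x :=
  ⟨fun _ => x, rfl, rfl, fun _ _ => hx, fun i hi => absurd hi (by omega)⟩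

theorem joined_cons {C : Set E3} {n : ℕ} {x x' y : E3} (hx : x ∈ C) (h : dist x x' = 2)
    (hj : Joined C n x' y) : Joined C (n + 1) x y := by
  obtain ⟨c, h0, h1, h2, h3⟩ := hj
  refine ⟨fun i => Nat.casesOn i x c, rfl, h1, fun i hi => ?_, fun i hi => ?_⟩
  · cases i with
    | zero => exact hx
    | succ i => exact h2 i (by omega)
  · cases i with
    | zero => show dist x (c 0) = 2; rw [h0]; exact h
    | succ i => exact h3 i (by omega)

theorem joined_symm {C : Set E3} {n : ℕ} {x y : E3} (hj : Joined C n x y) : Joined C n y x := by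
  obtain ⟨c, h0, h1, h2, h3⟩ := hj
  refine ⟨fun i => c (n - i), by simpa using h1, by simpa using h0, fun i _ => h2 _ (by omega),
    fun i hi => ?_⟩
  have := h3 (n - (i + 1)) (by omega)
  rw [show n - (i + 1) + 1 = n - i by omega] at this
  rw [dist_comm]
  exact this

theorem joined_of_le {C : Set E3} (hC : IsPacking C) {η : ℝ} (hη : 0 < η)
    (hd : ∀ x ∈ C, ∀ y ∈ C, 2 < dist x y → ∃ x' ∈ C, ∃ y' ∈ C, (x' = x ∨ dist x x' = 2) ∧
      (y' = y ∨ dist y y' = 2) ∧ dist x' y' < dist x y - η) (k : ℕ) :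
    ∀ x ∈ C, ∀ y ∈ C, dist x y ≤ 2 + k * η → ∃ n ≤ 2 * k + 1, Joined C n x y := by
  induction k with
  | zero =>
    intro x hx y hy h
    by_cases hxy : x = y
    · subst hxy
      exact ⟨0, by omega, joined_refl hx⟩
    · have h2 := hC x hx y hy hxy
      have h3 : dist x y = 2 := le_antisymm (by simpa using h) h2
      exact ⟨1, by omega, joined_cons hx h3 (joined_refl hy)⟩
  | succ k ih =>
    intro x hx y hy h
    by_cases h2 : 2 < dist x y
    · obtain ⟨x', hx', y', hy', h3, h4, h5⟩ := hd x hx y hy h2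
      obtain ⟨n, hn, hj⟩ := ih x' hx' y' hy' (by push_cast at h; linarith)
      have hj2 : ∃ n' ≤ n + 1, Joined C n' x y' := by
        rcases h3 with h3 | h3
        · subst h3
          exact ⟨n, by omega, hj⟩
        · exact ⟨n + 1, le_refl _, joined_cons hx h3 hj⟩
      obtain ⟨n', hn', hj'⟩ := hj2
      rcases h4 with h4 | h4
      · subst h4
        exact ⟨n', by omega, hj'⟩
      · exact ⟨n' + 1, by omega, joined_symm (joined_cons hy h4 (joined_symm hj'))⟩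
    · obtain ⟨n, hn, hj⟩ := ih x hx y hy (by
        push Not at h2
        have : 0 ≤ (k : ℝ) * η := by positivity
        linarith)
      exact ⟨n, by omega, hj⟩

end

end MPdef58eTwo
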