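import Pool.Agent.Work.MP_def58e_co.Penta5
import Pool.Agent.Work.MP_def58e_two.Geom
import Pool.Agent.Work.MP_def58e_two.C11.Fin

/-!
Common neighbours in an eleven-neighbour packing, and the contact graph of a ten-neighbour packing.
-/

namespace MPdef58eTwo

open MPdef58e

noncomputable section

theorem noPair_mono {N : ℕ} {m c m' c' : ℝ} (H : NoPair N m c) (hm : m' ≤ m) (hc : c' ≤ c) :
    NoPair N m' c' := by
  intro a b e ha hb he haa hbb hae hbe hab
  exact H a b e ha hb he haa hbb (fun i => (hae i).trans hm) (fun i => (hbe i).trans hm)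
    (fun i j => (hab i j).trans (by linarith))

theorem noPair_ten_one : NoPair 10 (1 - (1 : ℝ) ^ 2 / 2) ((1 - (1 : ℝ) ^ 2) / 2) :=
  noPair_mono MPdef58eC11.noPair (by norm_num) (by norm_num)

theorem noPair_ten : NoPair 10 (1 - (499 / 500 : ℝ) ^ 2 / 2) ((1 - (499 / 500 : ℝ) ^ 2) / 2) :=
  noPair_mono MPdef58eC11.noPair (by norm_num) (by norm_num)

/-- neighbours of `c` other than `q` -/
theorem exists_star' {C : Set E3} (hC : IsPacking C) {c q : E3} {N : ℕ}
    (h : ((N + 1 : ℕ) : ℕ∞) ≤ (neighbours C c).encard) :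
    ∃ y : Fin N → E3, (∀ i, y i ∈ C) ∧ (∀ i, dist c (y i) = 2) ∧
      (∀ i j, i ≠ j → 2 ≤ dist (y i) (y j)) ∧ ∀ i, y i ≠ q := by
  obtain ⟨z, h1, h2, h3⟩ := exists_star hC h
  have hinj : ∀ i j, z i = z j → i = j := by
    intro i j hij
    by_contra hne
    have := h3 i j hne
    rw [hij, dist_self] at this
    norm_num at this
  by_cases hq : ∃ k, z k = q
  · obtain ⟨k, hk⟩ := hq
    refine ⟨fun i => z (k.succAbove i), fun i => h1 _, fun i => h2 _, fun i j hij => ?_,
      fun i hi => ?_⟩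
    · exact h3 _ _ fun h => hij (Fin.succAbove_right_injective h)
    · exact Fin.succAbove_ne k i (hinj _ _ (hi.trans hk.symm))
  · push Not at hq
    exact ⟨fun i => z i.castSucc, fun i => h1 _, fun i => h2 _, fun i j hij =>
      h3 _ _ fun h => hij (Fin.castSucc_injective _ h), fun i => hq _⟩

/-- **Common neighbours.** -/
theorem common_neighbour {C : Set E3} (hC : IsPacking C) {x y : E3} (hx : x ∈ C) (hy : y ∈ C)
    (hxy : dist x y = 2) (hNx : (11 : ℕ∞) ≤ (neighbours C x).encard)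
    (hNy : (11 : ℕ∞) ≤ (neighbours C y).encard) :
    ∃ z ∈ C, dist x z = 2 ∧ dist y z = 2 := by
  by_contra hcon
  push Not at hcon
  obtain ⟨z, hz1, hz2, hz3, hz4⟩ := exists_star' (N := 10) (q := y) hC (by exact_mod_cast hNx)
  obtain ⟨w, hw1, hw2, hw3, hw4⟩ := exists_star' (N := 10) (q := x) hC (by exact_mod_cast hNy)
  set e : E3 := (1 / 2 : ℝ) • (y - x) with he
  have hen : ‖e‖ = 1 := by
    rw [he, norm_smul, ← dist_eq_norm, dist_comm, hxy, Real.norm_of_nonneg (by positivity)]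
    norm_num
  have key : ∀ (p q v : E3), q - p = (2 : ℝ) • v → 2 ≤ dist p q → 1 ≤ ‖v‖ := by
    intro p q v h1 h2
    rw [dist_comm, dist_eq_norm, h1, norm_smul, Real.norm_of_nonneg (by norm_num)] at h2
    linarith
  have hye : y - x = (2 : ℝ) • e := by
    rw [he, smul_smul]
    norm_num
  have hze : ∀ i, z i - x = (2 : ℝ) • hd x z i := by
    intro i
    unfold hd
    rw [smul_smul]
    norm_num
  have hwe : ∀ i, w i - y = (2 : ℝ) • hd y w i := by
    intro i
    unfold hd
    rw [smul_smul]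
    norm_num
  refine star_geom (by norm_num : (0 : ℝ) ≤ 1) noPair_ten_one (hd x z) (hd y w) e (norm_hd hz2)
    (norm_hd hw2) hen (inner_hd hz2 hz3) (inner_hd hw2 hw3) (fun i => ?_) (fun i => ?_)
    (fun i j => ?_)
  · refine key (z i) y _ ?_ (hC _ (hz1 i) _ hy (hz4 i))
    have : y - z i = (y - x) - (z i - x) := by abel
    rw [this, hye, hze]
    module
  · refine key x (w i) _ ?_ (hC _ hx _ (hw1 i) (hw4 i).symm)
    have : w i - x = (y - x) + (w i - y) := by abel
    rw [this, hye, hwe]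
    module
  · refine key (z i) (w j) _ ?_ (hC _ (hz1 i) _ (hw1 j) fun h => ?_)
    · have : w j - z i = (y - x) + (w j - y) - (z i - x) := by abel
      rw [this, hye, hwe, hze]
      module
    · exact hcon (z i) (hz1 i) (hz2 i) (h ▸ hw2 j)

theorem descent_ten {C : Set E3} (hC : IsNeighbourPacking 10 C) {x y : E3} (hx : x ∈ C)
    (hy : y ∈ C) (hxy : 2 < dist x y) :
    ∃ x' ∈ C, ∃ y' ∈ C, (x' = x ∨ dist x x' = 2) ∧ (y' = y ∨ dist y y' = 2) ∧
      dist x' y' < dist x y - 1 / 250 := by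
  obtain ⟨-, hP, hN⟩ := hC
  obtain ⟨x', hx', y', hy', h1, h2, h3⟩ := descent_aux hP (by norm_num : (0 : ℝ) ≤ 499 / 500)
    noPair_ten hx hy (hN x hx) (hN y hy) hxy
  exact ⟨x', hx', y', hy', h1, h2, by norm_num at h3 ⊢; linarith⟩

/-- chains in a ten-neighbour packing -/
theorem chain_ten {C : Set E3} (hC : IsNeighbourPacking 10 C) {x y : E3} (hx : x ∈ C)
    (hy : y ∈ C) : ∃ n : ℕ, (n : ℝ) ≤ 500 * dist x y ∧ Joined C n x y := by
  by_cases hxy : x = y
  · subst hxy
    exact ⟨0, by simp, joined_refl hx⟩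
  · have h2 := hC.2.1 x hx y hy hxy
    have hk := Nat.le_ceil (250 * (dist x y - 2))
    have hk2 := Nat.ceil_lt_add_one (show 0 ≤ 250 * (dist x y - 2) by linarith)
    set k := ⌈250 * (dist x y - 2)⌉₊ with hkd
    obtain ⟨n, hn, hj⟩ := joined_of_le hC.2.1 (η := 1 / 250) (by norm_num)
      (fun x hx y hy h => descent_ten hC hx hy h) k x hx y hy (by linarith)
    refine ⟨n, ?_, hj⟩
    have : (n : ℝ) ≤ 2 * k + 1 := by exact_mod_cast hn
    linarith

end

end MPdef58eTwo
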