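import Pool.Agent.Work.MP_def58e_co.Penta5
import Pool.Agent.Work.MP_def58e_two.Geom
import Pool.Agent.Work.MP_def58e_two.C7.Star

/-!
The contact graph of an eleven-neighbour packing.
-/

namespace MPdef58eTwo

open MPdef58e

noncomputable section

theorem noPair_eleven : NoPair 11 (1 - (9 / 10 : ℝ) ^ 2 / 2) ((1 - (9 / 10 : ℝ) ^ 2) / 2) := by
  intro a b e ha hb he haa hbb hae hbe hab
  refine MPdef58eC7.no_pair a b e ha hb he haa hbb (fun i => ?_) (fun i => ?_) (fun i j => ?_)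
  · have := hae i
    norm_num at this
    linarith
  · have := hbe i
    norm_num at this
    linarith
  · have := hab i j
    norm_num at this
    linarith

theorem descent_eleven {C : Set E3} (hC : IsNeighbourPacking 11 C) {x y : E3} (hx : x ∈ C)
    (hy : y ∈ C) (hxy : 2 < dist x y) :
    ∃ x' ∈ C, ∃ y' ∈ C, (x' = x ∨ dist x x' = 2) ∧ (y' = y ∨ dist y y' = 2) ∧
      dist x' y' < dist x y - 1 / 5 := by
  obtain ⟨-, hP, hN⟩ := hC
  obtain ⟨x', hx', y', hy', h1, h2, h3⟩ := descent_aux hP (by norm_num : (0 : ℝ) ≤ 9 / 10)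
    noPair_eleven hx hy (hN x hx) (hN y hy) hxy
  exact ⟨x', hx', y', hy', h1, h2, by norm_num at h3 ⊢; linarith⟩

/-- chains -/
theorem chain_eleven {C : Set E3} (hC : IsNeighbourPacking 11 C) {x y : E3} (hx : x ∈ C)
    (hy : y ∈ C) : ∃ n : ℕ, (n : ℝ) ≤ 10 * dist x y ∧ Joined C n x y := by
  by_cases hxy : x = y
  · subst hxy
    exact ⟨0, by simp, joined_refl hx⟩
  · have h2 := hC.2.1 x hx y hy hxy
    have hk := Nat.le_ceil (5 * (dist x y - 2))
    have hk2 := Nat.ceil_lt_add_one (show 0 ≤ 5 * (dist x y - 2) by linarith)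
    set k := ⌈5 * (dist x y - 2)⌉₊ with hkd
    obtain ⟨n, hn, hj⟩ := joined_of_le hC.2.1 (η := 1 / 5) (by norm_num)
      (fun x hx y hy h => descent_eleven hC hx hy h) k x hx y hy (by linarith)
    refine ⟨n, ?_, hj⟩
    have : (n : ℝ) ≤ 2 * k + 1 := by exact_mod_cast hn
    linarith

/-- the covering radius -/
theorem cover_eleven {C : Set E3} (hC : IsNeighbourPacking 11 C) (p : E3) :
    ∃ x ∈ C, dist p x ≤ 10 / 3 := by
  obtain ⟨x, hx, hn⟩ := exists_nearest hC.1 hC.2.1 p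
  refine ⟨x, hx, ?_⟩
  by_contra hcon
  push Not at hcon
  obtain ⟨z, hz1, hz2, hz3⟩ := exists_star hC.2.1 (hC.2.2 x hx)
  obtain ⟨i, hi⟩ := hole_three (hd x z) (norm_hd hz2) (inner_hd hz2 hz3) (p - x)
  have h1 := hn (z i) (hz1 i)
  have hze : z i - x = (2 : ℝ) • hd x z i := by
    unfold hd
    rw [smul_smul]
    norm_num
  have h2 : dist p (z i) ^ 2 = dist p x ^ 2 - 4 * inner ℝ (hd x z i) (p - x) + 4 := by
    rw [dist_eq_norm, dist_eq_norm, show p - z i = (p - x) - (2 : ℝ) • hd x z i by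
      rw [← hze]; abel, norm_sub_sq_real, norm_smul, norm_hd hz2, inner_smul_right,
      real_inner_comm, Real.norm_of_nonneg (by norm_num : (0 : ℝ) ≤ 2)]
    ring
  rw [← dist_eq_norm] at hi
  have h3 : dist p x ^ 2 ≤ dist p (z i) ^ 2 := pow_le_pow_left₀ dist_nonneg h1 2
  nlinarith

end

end MPdef58eTwo
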