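import Mathlib

/-!
Integer polynomials in one, two and three variables as nested lists of coefficients, with
evaluation; sums of weighted squares. Used to check polynomial identities by kernel computation.
-/

namespace MPdef58eTwo

noncomputable section

/-! ### one variable -/

/-- sum -/
def add1 : List ℤ → List ℤ → List ℤ
  | [], b => b
  | x :: a, [] => x :: a
  | x :: a, y :: b => (x + y) :: add1 a b

/-- multiple -/
def smul1 (c : ℤ) (a : List ℤ) : List ℤ := a.map (c * ·)

/-- product -/
def mul1 : List ℤ → List ℤ → List ℤ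
  | [], _ => []
  | x :: a, b => add1 (smul1 x b) (0 :: mul1 a b)

/-- value -/
def ev1 (t : ℝ) : List ℤ → ℝ
  | [] => 0
  | x :: a => x + t * ev1 t a

theorem ev1_add (t : ℝ) (a b : List ℤ) : ev1 t (add1 a b) = ev1 t a + ev1 t b := by
  induction a generalizing b with
  | nil => simp [add1, ev1]
  | cons x a ih =>
    cases b with
    | nil => simp [add1, ev1]
    | cons y b =>
      simp only [add1, ev1, ih]
      push_cast
      ring

theorem ev1_smul (t : ℝ) (c : ℤ) (a : List ℤ) : ev1 t (smul1 c a) = c * ev1 t a := by
  induction a with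
  | nil => simp [smul1, ev1]
  | cons x a ih =>
    have : smul1 c (x :: a) = (c * x) :: smul1 c a := rfl
    rw [this]
    simp only [ev1, ih]
    push_cast
    ring

theorem ev1_mul (t : ℝ) (a b : List ℤ) : ev1 t (mul1 a b) = ev1 t a * ev1 t b := by
  induction a with
  | nil => simp [mul1, ev1]
  | cons x a ih =>
    simp only [mul1, ev1_add, ev1_smul, ev1, ih]
    push_cast
    ring

/-! ### two variables -/

/-- sum -/
def add2 : List (List ℤ) → List (List ℤ) → List (List ℤ)
  | [], b => b
  | x :: a, [] => x :: a
  | x :: a, y :: b => add1 x y :: add2 a b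

/-- multiple -/
def smul2 (c : List ℤ) (a : List (List ℤ)) : List (List ℤ) := a.map (mul1 c)

/-- product -/
def mul2 : List (List ℤ) → List (List ℤ) → List (List ℤ)
  | [], _ => []
  | x :: a, b => add2 (smul2 x b) ([] :: mul2 a b)

/-- value -/
def ev2 (p t : ℝ) : List (List ℤ) → ℝ
  | [] => 0
  | x :: a => ev1 t x + p * ev2 p t a

theorem ev2_add (p t : ℝ) (a b : List (List ℤ)) :
    ev2 p t (add2 a b) = ev2 p t a + ev2 p t b := by
  induction a generalizing b with
  | nil => simp [add2, ev2]
  | cons x a ih =>
    cases b with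
    | nil => simp [add2, ev2]
    | cons y b =>
      simp only [add2, ev2, ih, ev1_add]
      ring

theorem ev2_smul (p t : ℝ) (c : List ℤ) (a : List (List ℤ)) :
    ev2 p t (smul2 c a) = ev1 t c * ev2 p t a := by
  induction a with
  | nil => simp [smul2, ev2]
  | cons x a ih =>
    have : smul2 c (x :: a) = mul1 c x :: smul2 c a := rfl
    rw [this]
    simp only [ev2, ih, ev1_mul]
    ring

theorem ev2_mul (p t : ℝ) (a b : List (List ℤ)) :
    ev2 p t (mul2 a b) = ev2 p t a * ev2 p t b := by
  induction a with
  | nil => simp [mul2, ev2]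
  | cons x a ih =>
    simp only [mul2, ev2_add, ev2_smul, ev2, ih, ev1]
    ring

/-! ### three variables -/

/-- sum -/
def add3 : List (List (List ℤ)) → List (List (List ℤ)) → List (List (List ℤ))
  | [], b => b
  | x :: a, [] => x :: a
  | x :: a, y :: b => add2 x y :: add3 a b

/-- multiple -/
def smul3 (c : List (List ℤ)) (a : List (List (List ℤ))) : List (List (List ℤ)) :=
  a.map (mul2 c)

/-- product -/
def mul3 : List (List (List ℤ)) → List (List (List ℤ)) → List (List (List ℤ))
  | [], _ => []
  | x :: a, b => add3 (smul3 x b) ([] :: mul3 a b)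

/-- value -/
def ev3 (s p t : ℝ) : List (List (List ℤ)) → ℝ
  | [] => 0
  | x :: a => ev2 p t x + s * ev3 s p t a

theorem ev3_add (s p t : ℝ) (a b : List (List (List ℤ))) :
    ev3 s p t (add3 a b) = ev3 s p t a + ev3 s p t b := by
  induction a generalizing b with
  | nil => simp [add3, ev3]
  | cons x a ih =>
    cases b with
    | nil => simp [add3, ev3]
    | cons y b =>
      simp only [add3, ev3, ih, ev2_add]
      ring

theorem ev3_smul (s p t : ℝ) (c : List (List ℤ)) (a : List (List (List ℤ))) :
    ev3 s p t (smul3 c a) = ev2 p t c * ev3 s p t a := by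
  induction a with
  | nil => simp [smul3, ev3]
  | cons x a ih =>
    have : smul3 c (x :: a) = mul2 c x :: smul3 c a := rfl
    rw [this]
    simp only [ev3, ih, ev2_mul]
    ring

theorem ev3_mul (s p t : ℝ) (a b : List (List (List ℤ))) :
    ev3 s p t (mul3 a b) = ev3 s p t a * ev3 s p t b := by
  induction a with
  | nil => simp [mul3, ev3]
  | cons x a ih =>
    simp only [mul3, ev3_add, ev3_smul, ev3, ih, ev2]
    ring

/-- multiple by an integer -/
def isml (c : ℤ) (a : List (List (List ℤ))) : List (List (List ℤ)) :=
  a.map fun x => x.map fun y => smul1 c y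

theorem ev2_isml (p t : ℝ) (c : ℤ) (a : List (List ℤ)) :
    ev2 p t (a.map fun y => smul1 c y) = c * ev2 p t a := by
  induction a with
  | nil => simp [ev2]
  | cons x a ih =>
    simp only [List.map_cons, ev2, ih, ev1_smul]
    ring

theorem ev3_isml (s p t : ℝ) (c : ℤ) (a : List (List (List ℤ))) :
    ev3 s p t (isml c a) = c * ev3 s p t a := by
  unfold isml
  induction a with
  | nil => simp [ev3]
  | cons x a ih =>
    simp only [List.map_cons, ev3, ih, ev2_isml]
    ring

/-- all coefficients are zero -/
def isZero (a : List (List (List ℤ))) : Bool :=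
  a.all fun x => x.all fun y => y.all fun z => z == 0

theorem ev1_zero (t : ℝ) (a : List ℤ) (h : (a.all fun z => z == 0) = true) : ev1 t a = 0 := by
  induction a with
  | nil => rfl
  | cons x a ih =>
    simp only [List.all_cons, Bool.and_eq_true, beq_iff_eq] at h
    simp only [ev1, ih h.2, h.1]
    simp

theorem ev2_zero (p t : ℝ) (a : List (List ℤ))
    (h : (a.all fun y => y.all fun z => z == 0) = true) : ev2 p t a = 0 := by
  induction a with
  | nil => rfl
  | cons x a ih =>
    simp only [List.all_cons, Bool.and_eq_true] at h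
    simp only [ev2, ih h.2, ev1_zero t x h.1]
    simp

theorem ev3_zero (s p t : ℝ) (a : List (List (List ℤ))) (h : isZero a = true) :
    ev3 s p t a = 0 := by
  unfold isZero at h
  induction a with
  | nil => rfl
  | cons x a ih =>
    simp only [List.all_cons, Bool.and_eq_true] at h
    simp only [ev3, ih h.2, ev2_zero p t x h.1]
    simp

/-- equality of two polynomials, checked by computation -/
def eqP (a b : List (List (List ℤ))) : Bool := isZero (add3 a (isml (-1) b))

theorem ev3_eqP (s p t : ℝ) {a b : List (List (List ℤ))} (h : eqP a b = true) :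
    ev3 s p t a = ev3 s p t b := by
  have := ev3_zero s p t _ h
  rw [ev3_add, ev3_isml] at this
  push_cast at this
  linarith

/-- sum of weighted squares -/
def wsum : List (ℕ × List (List (List ℤ))) → List (List (List ℤ))
  | [] => []
  | x :: l => add3 (mul3 (isml x.1 x.2) x.2) (wsum l)

theorem wsum_nonneg (s p t : ℝ) (l : List (ℕ × List (List (List ℤ)))) :
    0 ≤ ev3 s p t (wsum l) := by
  induction l with
  | nil => simp [wsum, ev3]
  | cons x l ih =>
    simp only [wsum, ev3_add, ev3_mul, ev3_isml]
    have : 0 ≤ ((x.1 : ℤ) : ℝ) * (ev3 s p t x.2 * ev3 s p t x.2) := by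
      apply mul_nonneg
      · exact_mod_cast Nat.zero_le _
      · exact mul_self_nonneg _
    linarith [this, mul_assoc ((x.1 : ℤ) : ℝ) (ev3 s p t x.2) (ev3 s p t x.2)]

end

end MPdef58eTwo
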