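import Pool.Agent.Work.MP_def58e_two.Kern2
import Pool.Agent.Work.MP_def58e_two.Refl

/-!
Reflective verification of a certificate: kernels given by integer data.
-/

namespace MPdef58eTwo

open MPdef58e MPdef58eHole

noncomputable section

/-- sum of squares -/
def sqs : List (List (List (List ℤ))) → List (List (List ℤ))
  | [] => []
  | x :: l => add3 (mul3 x x) (sqs l)

theorem sqs_nonneg (s p t : ℝ) (l : List (List (List (List ℤ)))) : 0 ≤ ev3 s p t (sqs l) := by
  induction l with
  | nil => simp [sqs, ev3]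
  | cons x l ih =>
    simp only [sqs, ev3_add, ev3_mul]
    have := mul_self_nonneg (ev3 s p t x)
    linarith

/-- the check of one block of the certificate -/
def blk (w : ℕ) (V : List (List (List (List ℤ)))) (X : List (ℕ × List (List (List ℤ))))
    (W : List (List (List ℤ))) : Bool := eqP (add3 (isml w (sqs V)) (wsum X)) W

theorem blk_nonneg {w : ℕ} {V : List (List (List (List ℤ)))}
    {X : List (ℕ × List (List (List ℤ)))} {W : List (List (List ℤ))} (h : blk w V X W = true)
    (s p t : ℝ) : 0 ≤ ev3 s p t W := by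
  have h1 := ev3_eqP s p t h
  rw [← h1, ev3_add, ev3_isml]
  have h2 := sqs_nonneg s p t V
  have h3 := wsum_nonneg s p t X
  have h4 : (0 : ℝ) ≤ ((w : ℤ) : ℝ) := by exact_mod_cast Nat.zero_le w
  have := mul_nonneg h4 h2
  linarith

/-- `s ^ 2 - 4 p` -/
def discP : List (List (List ℤ)) := [[[], [-4]], [], [[1]]]

theorem ev3_disc (s p t : ℝ) : ev3 s p t discP = s ^ 2 - 4 * p := by
  simp [discP, ev3, ev2, ev1]
  ring

/-- the check of a constraint -/
def cns (G W1 W2 H W3 W4 M W5 W6 : List (List (List ℤ))) : Bool :=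
  eqP G (add3 (add3 W1 (mul3 discP W2)) (add3 (mul3 H (add3 W3 (mul3 discP W4)))
    (mul3 M (add3 W5 (mul3 discP W6)))))

theorem cns_nonneg {G W1 W2 H W3 W4 M W5 W6 : List (List (List ℤ))}
    (h : cns G W1 W2 H W3 W4 M W5 W6 = true) {s p t : ℝ} (hd : 0 ≤ s ^ 2 - 4 * p)
    (hH : 0 ≤ ev3 s p t H) (hM : 0 ≤ ev3 s p t M) (h1 : 0 ≤ ev3 s p t W1)
    (h2 : 0 ≤ ev3 s p t W2) (h3 : 0 ≤ ev3 s p t W3) (h4 : 0 ≤ ev3 s p t W4)
    (h5 : 0 ≤ ev3 s p t W5) (h6 : 0 ≤ ev3 s p t W6) : 0 ≤ ev3 s p t G := by
  rw [ev3_eqP s p t h]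
  simp only [ev3_add, ev3_mul, ev3_disc]
  positivity

/-! ### the polynomials `qq` -/

/-- `2 (t - p)` -/
def qX : List (List (List ℤ)) := [[[0, 2], [-2]]]

/-- `- (1 - (s ^ 2 - 2 p) + p ^ 2)` -/
def qY : List (List (List ℤ)) := [[[-1], [-2], [-1]], [], [[1]]]

theorem qq_zero (s p t : ℝ) : ev3 s p t [[[1]]] = qq 0 s p t := by
  simp [qq, ev3, ev2, ev1]

theorem qq_one (s p t : ℝ) : ev3 s p t [[[0, 1], [-1]]] = qq 1 s p t := by
  simp [qq, ev3, ev2, ev1]
  ring

theorem qq_step {k : ℕ} {a b c : List (List (List ℤ))}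
    (h : eqP c (add3 (mul3 qX b) (mul3 qY a)) = true)
    (ha : ∀ s p t : ℝ, ev3 s p t a = qq k s p t) (hb : ∀ s p t : ℝ, ev3 s p t b = qq (k + 1) s p t)
    (s p t : ℝ) : ev3 s p t c = qq (k + 2) s p t := by
  rw [ev3_eqP s p t h, ev3_add, ev3_mul, ev3_mul, ha, hb]
  simp only [qq, qX, qY, ev3, ev2, ev1]
  push_cast
  ring

/-! ### two variables `u`, `v` -/

/-- `f (u) f (v)` -/
def outer (L : List ℤ) : List (List ℤ) := L.map fun a => smul1 a L

theorem ev2_outer_aux (u v : ℝ) (L M : List ℤ) :
    ev2 u v (L.map fun a => smul1 a M) = ev1 u L * ev1 v M := by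
  induction L with
  | nil => simp [ev2, ev1]
  | cons a L ih =>
    simp only [List.map_cons, ev2, ih, ev1_smul, ev1]
    ring

/-- sum of `f (u) f (v)` -/
def outs : List (List ℤ) → List (List ℤ)
  | [] => []
  | L :: l => add2 (outer L) (outs l)

/-- the function given by a list of integers and a denominator -/
def fnd (d : ℝ) (L : List ℤ) (u : ℝ) : ℝ := ev1 u L / d

theorem ls_outs (d : ℝ) (u v : ℝ) (l : List (List ℤ)) :
    ls (l.map (fnd d)) u v = ev2 u v (outs l) / d ^ 2 := by
  induction l with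
  | nil => simp [ls, outs, ev2]
  | cons L l ih =>
    have e : ls ((L :: l).map (fnd d)) u v = fnd d L u * fnd d L v + ls (l.map (fnd d)) u v := by
      simp [ls]
    rw [e, ih]
    simp only [outs, ev2_add, outer, ev2_outer_aux, fnd]
    ring

/-- substitution of `u v` -/
def cmp1 : List ℤ → List (List ℤ)
  | [] => []
  | c :: x => add2 [[c]] (mul2 [[], [0, 1]] (cmp1 x))

/-- substitution of `u + v` and `u v` -/
def cmp2 : List (List ℤ) → List (List ℤ)
  | [] => []
  | x :: a => add2 (cmp1 x) (mul2 [[0, 1], [1]] (cmp2 a))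

theorem ev2_cmp1 (u v : ℝ) (x : List ℤ) : ev2 u v (cmp1 x) = ev1 (u * v) x := by
  induction x with
  | nil => rfl
  | cons c x ih =>
    have e1 : ev2 u v [[c]] = c := by simp [ev2, ev1]
    have e2 : ev2 u v [[], [0, 1]] = u * v := by simp [ev2, ev1]
    rw [cmp1, ev2_add, ev2_mul, ih, e1, e2]
    rfl

theorem ev2_cmp2 (u v : ℝ) (a : List (List ℤ)) : ev2 u v (cmp2 a) = ev2 (u + v) (u * v) a := by
  induction a with
  | nil => rfl
  | cons x a ih =>
    have e2 : ev2 u v [[0, 1], [1]] = u + v := by
      simp [ev2, ev1]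
      ring
    rw [cmp2, ev2_add, ev2_mul, ih, ev2_cmp1, e2]
    rfl

/-- all coefficients are zero -/
def isZero2 (a : List (List ℤ)) : Bool := a.all fun y => y.all fun z => z == 0

/-- equality of two polynomials, checked by computation -/
def eq2 (a b : List (List ℤ)) : Bool := isZero2 (add2 a (b.map fun y => smul1 (-1) y))

theorem ev2_eq2 (p t : ℝ) {a b : List (List ℤ)} (h : eq2 a b = true) : ev2 p t a = ev2 p t b := by
  have := ev2_zero p t _ h
  rw [ev2_add, ev2_isml] at this
  push_cast at this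
  linarith

/-- a polynomial in `s`, `p` as a polynomial in `s`, `p`, `t` -/
def emb (a : List (List ℤ)) : List (List (List ℤ)) := a.map fun x => x.map fun c => [c]

theorem ev2_emb (p t : ℝ) (x : List ℤ) : ev2 p t (x.map fun c => [c]) = ev1 p x := by
  induction x with
  | nil => rfl
  | cons c x ih =>
    simp only [List.map_cons, ev2, ih, ev1]
    simp

theorem ev3_emb (s p t : ℝ) (a : List (List ℤ)) : ev3 s p t (emb a) = ev2 s p a := by
  unfold emb
  induction a with
  | nil => rfl
  | cons x a ih =>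
    simp only [List.map_cons, ev3, ih, ev2, ev2_emb]

/-- the kernel polynomial -/
def kpol : List (List (List (List ℤ))) → List (List (List ℤ)) → List (List (List ℤ))
  | q :: qs, S :: Ss => add3 (mul3 q (emb S)) (kpol qs Ss)
  | _, _ => []

theorem ker_kpol (d : ℝ) (u v t : ℝ) :
    ∀ (Fs : List (List (List ℤ))) (qs : List (List (List (List ℤ))))
      (Ss : List (List (List ℤ))) (k : ℕ), Fs.length = Ss.length → Fs.length = qs.length →
      (∀ i, (h1 : i < Fs.length) → (h2 : i < Ss.length) → eq2 (outs Fs[i]) (cmp2 Ss[i]) = true) →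
      (∀ i, (h1 : i < qs.length) → ∀ s p t : ℝ, ev3 s p t qs[i] = qq (k + i) s p t) →
      ker (Fs.map fun l => l.map (fnd d)) k u v t =
        ev3 (u + v) (u * v) t (kpol qs Ss) / d ^ 2 := by
  intro Fs
  induction Fs with
  | nil =>
    intro qs Ss k h1 h2 _ _
    cases Ss with
    | nil => cases qs with
      | nil => simp [ker, kpol, ev3]
      | cons q qs => simp at h2
    | cons S Ss => simp at h1
  | cons F Fs ih =>
    intro qs Ss k h1 h2 h3 h4
    cases Ss with
    | nil => simp at h1
    | cons S Ss =>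
      cases qs with
      | nil => simp at h2
      | cons q qs =>
        have e1 : ker ((F :: Fs).map fun l => l.map (fnd d)) k u v t
            = Q k u v t * ls (F.map (fnd d)) u v
              + ker (Fs.map fun l => l.map (fnd d)) (k + 1) u v t := rfl
        have h5 := h3 0 (by simp) (by simp)
        simp only [List.getElem_cons_zero] at h5
        have h6 := h4 0 (by simp) (u + v) (u * v) t
        simp only [List.getElem_cons_zero, add_zero] at h6
        rw [e1, ls_outs, ev2_eq2 u v h5, ev2_cmp2, (Q_eq_qq k u v t).1, ← h6,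
          ih qs Ss (k + 1) (by simpa using h1) (by simpa using h2)
            (fun i a b => by
              have := h3 (i + 1) (by simpa using a) (by simpa using b)
              simpa using this)
            (fun i a s p t => by
              have := h4 (i + 1) (by simpa using a) s p t
              simp only [List.getElem_cons_succ] at this
              rw [this, show k + (i + 1) = k + 1 + i by omega])]
        simp only [kpol, ev3_add, ev3_mul, ev3_emb]
        ring

/-- sum of the squares of the functions -/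
def sq1 : List (List ℤ) → List ℤ
  | [] => []
  | L :: l => add1 (mul1 L L) (sq1 l)

theorem ls_diag (d u : ℝ) (l : List (List ℤ)) :
    ls (l.map (fnd d)) u u = ev1 u (sq1 l) / d ^ 2 := by
  induction l with
  | nil => simp [ls, sq1, ev1]
  | cons L l ih =>
    have e : ls ((L :: l).map (fnd d)) u u = fnd d L u * fnd d L u + ls (l.map (fnd d)) u u := by
      simp [ls]
    rw [e, ih]
    simp only [sq1, ev1_add, ev1_mul, fnd]
    ring

/-- the diagonal of the kernel, by Horner's rule in `1 - u ^ 2` -/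
def dpol : List (List (List ℤ)) → List ℤ
  | [] => []
  | l :: Fs => add1 (sq1 l) (mul1 [1, 0, -1] (dpol Fs))

theorem ker_dpol (d u : ℝ) (Fs : List (List (List ℤ))) (k : ℕ) :
    ker (Fs.map fun l => l.map (fnd d)) k u u 1 = (1 - u ^ 2) ^ k * ev1 u (dpol Fs) / d ^ 2 := by
  induction Fs generalizing k with
  | nil => simp [ker, dpol, ev1]
  | cons F Fs ih =>
    have e1 : ker ((F :: Fs).map fun l => l.map (fnd d)) k u u 1
        = Q k u u 1 * ls (F.map (fnd d)) u u
          + ker (Fs.map fun l => l.map (fnd d)) (k + 1) u u 1 := rfl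
    rw [e1, ls_diag, (Q_diag k u).1, ih (k + 1)]
    simp only [dpol, ev1_add, ev1_mul]
    have : ev1 u [1, 0, -1] = 1 - u ^ 2 := by
      simp [ev1]
      ring
    rw [this]
    ring

theorem ev3_const (u : ℝ) (L : List ℤ) : ev3 0 0 u [[L]] = ev1 u L := by
  simp [ev3, ev2]

end

end MPdef58eTwo
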