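import Pool.Agent.Work.MP_def58e_two.Geom
import Pool.Agent.Work.MP_def58e_two.Refl2

/-!
The verified certificate implies that there are no two stars: assembly.
-/

namespace MPdef58eTwo

open MPdef58e MPdef58eHole

noncomputable section

/-- check of the sums of products -/
def allS : List (List (List ℤ)) → List (List (List ℤ)) → Bool
  | [], [] => true
  | F :: Fs, S :: Ss => eq2 (outs F) (cmp2 S) && allS Fs Ss
  | _, _ => false

theorem allS_spec {Fs Ss : List (List (List ℤ))} (h : allS Fs Ss = true) :
    Fs.length = Ss.length ∧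
      ∀ i, (h1 : i < Fs.length) → (h2 : i < Ss.length) → eq2 (outs Fs[i]) (cmp2 Ss[i]) = true := by
  induction Fs generalizing Ss with
  | nil =>
    cases Ss with
    | nil => exact ⟨rfl, fun i h1 => absurd h1 (by simp)⟩
    | cons S Ss => simp [allS] at h
  | cons F Fs ih =>
    cases Ss with
    | nil => simp [allS] at h
    | cons S Ss =>
      simp only [allS, Bool.and_eq_true] at h
      obtain ⟨e, h3⟩ := ih h.2
      refine ⟨by simp [e], ?_⟩
      intro i h1 h2
      cases i with
      | zero => simpa using h.1
      | succ i =>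
        have := h3 i (by simpa using h1) (by simpa using h2)
        simpa using this

/-- check of the recursion of the polynomials `qq` -/
def qchk : List (List (List ℤ)) → List (List (List ℤ)) → List (List (List (List ℤ))) → Bool
  | _, _, [] => true
  | a, b, c :: l => eqP c (add3 (mul3 qX b) (mul3 qY a)) && qchk b c l

theorem qchk_spec (l : List (List (List (List ℤ)))) (a b : List (List (List ℤ))) (k : ℕ)
    (h : qchk a b l = true) (ha : ∀ s p t : ℝ, ev3 s p t a = qq k s p t)
    (hb : ∀ s p t : ℝ, ev3 s p t b = qq (k + 1) s p t) :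
    ∀ i, (h1 : i < (a :: b :: l).length) → ∀ s p t : ℝ,
      ev3 s p t (a :: b :: l)[i] = qq (k + i) s p t := by
  induction l generalizing a b k with
  | nil =>
    intro i h1 s p t
    rcases i with _ | _ | i
    · simpa using ha s p t
    · simpa using hb s p t
    · simp at h1
  | cons c l ih =>
    simp only [qchk, Bool.and_eq_true] at h
    intro i h1 s p t
    cases i with
    | zero => simpa using ha s p t
    | succ i =>
      have := ih b c (k + 1) h.2 hb (fun s p t => by
        have := qq_step h.1 ha hb s p t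
        rw [this]) i (by simpa using h1) s p t
      rw [show k + (i + 1) = k + 1 + i by omega, ← this]
      simp

/-- the kernel functions of a certificate -/
def fns (d : ℝ) (Fs : List (List (List ℤ))) : List (List (ℝ → ℝ)) :=
  Fs.map fun l => l.map (fnd d)

theorem ker_eq {d : ℝ} {Fs Ss : List (List (List ℤ))} {l : List (List (List (List ℤ)))}
    {K : List (List (List ℤ))} (hS : allS Fs Ss = true)
    (hq : qchk [[[1]]] [[[0, 1], [-1]]] l = true)
    (hl : Fs.length = (([[[1]]] : List (List (List ℤ))) :: [[[0, 1], [-1]]] :: l).length)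
    (hK : eqP K (kpol ([[[1]]] :: [[[0, 1], [-1]]] :: l) Ss) = true) (u v t : ℝ) :
    ker (fns d Fs) 0 u v t = ev3 (u + v) (u * v) t K / d ^ 2 := by
  obtain ⟨h1, h2⟩ := allS_spec hS
  rw [ev3_eqP _ _ _ hK]
  refine ker_kpol d u v t Fs _ Ss 0 h1 hl h2 ?_
  exact qchk_spec l _ _ 0 hq qq_zero qq_one

/-- the symmetric sum of a function of one variable -/
def symf (g : List ℤ) : List (List ℤ) := add2 [g] (g.map fun c => [c])

theorem ev2_symf (u v : ℝ) (g : List ℤ) : ev2 u v (symf g) = ev1 v g + ev1 u g := by
  unfold symf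
  rw [ev2_add, ev2_emb]
  simp [ev2]

theorem sym_eq {g : List ℤ} {gs : List (List ℤ)} (h : eq2 (symf g) (cmp2 gs) = true) (u v : ℝ) :
    ev1 v g + ev1 u g = ev2 (u + v) (u * v) gs := by
  rw [← ev2_cmp2, ← ev2_eq2 u v h, ev2_symf]

theorem pair_bound {D a b dv dg nd X Y : ℝ} (hD : 0 < D) (ha : a = D / (dv * dg))
    (hb : b = D / nd) (h : 0 ≤ a * X - b * Y) : Y / nd ≤ X / dg / dv := by
  subst ha hb
  have e : D / (dv * dg) * X - D / nd * Y = D * (X / dg / dv - Y / nd) := by
    ring
  rw [e] at h
  have := nonneg_of_mul_nonneg_right h hD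
  linarith

end

end MPdef58eTwo
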